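import Pool.Agent.KS6_25.CP.P5

/-!
# Four of five consecutive odd integers: a prime, a `P₂` and two almost primes, together with `k` further primes

For odd `n ≠ 3` at least four of `n`, `n + 2`, `n + 4`, `n + 6`, `n + 8` are prime if and only if the numbers `n + h`,
`h ∈ {0, 2, 6, 8}`, are prime. Let `i ≠ j` be two elements of this set `T` (or of any other finite set `T`). For almost
all vectors `b = (b_1, ..., b_k)` of every box whose sides are at least `N ^ (1 / 3 + ρ)` there are, if there is no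
local obstruction, `≥ c N / log ^ (|T| + k) N` integers `n` in `(N, 2 N]` such that `n + i` is a prime, `n + j` has at most
two prime factors, all the `n + h`, `h ∈ T`, have at most `r` prime factors, all of them `≥ N ^ (1 / r)`, and all the numbers
`n + b_1, ..., n + b_k` are primes; `c` and `r` depend only on `T`, `i`, `j` and `k`. More generally this holds for thin
families in the place of the sides of the box, for all neighbours of their members and for the forms `|a_l n + b_l|` with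
all slopes `|a_l| ≤ log ^ D N` at the same time.

Proof. The mean square of the exponential sum with the von Mangoldt function minus its sieve model over the
`N ^ (2 / 3 - ρ)` consecutive frequencies `α + s / (2 N + 1)` is smaller than the trivial bound by any power of `log N`
(`Pool.Agent.KS6_25.SH.kest`). With the indicator function of the `n` for which `n + i` is prime, `n + j` is a `P₂` and
the `n + h` are almost primes as a weight, this allows to replace the primes `a_l n + b_l` by the sieve model with the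
level `log ^ E N` for almost all `b` (`Pool.Agent.KS6_25.CP.low_short`). The resulting sums are bounded from below by
Chen's theorem inside sifted sets (`Pool.Agent.KS6_25.CP.model_low`, following `Pool.Agent.KS6_51.CH`).
-/

set_option autoImplicit false

namespace Pool.Agent.Results.MP_fc51f7_nt.ChenQuadruplesAndPrimes

open Finset Filter
open Pool.Agent.KS6_25.CP (Ok Bs CC cntW low_nbhd model_chen Bs_sub)

open Classical in
/-- The number of the `n` with `N < n ≤ 2 N` such that `n + i` is a prime, `n + j` has at most two prime factors,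
counted with multiplicity, all of them at least `N ^ (1 / 9)`, the numbers `n + h`, `h ∈ T`, have at most `r` prime factors,
counted with multiplicity, all of them at least `N ^ (1 / r)`, and all the numbers `|a l * n + b l|` are primes. -/
noncomputable def count (T : Finset ℕ) (i j r N : ℕ) {k : ℕ} (a b : Fin k → ℤ) : ℕ :=
  ((Ioc N (2 * N)).filter (fun n : ℕ => (n + i).Prime ∧ (n + j).primeFactorsList.length ≤ 2 ∧
    (∀ q : ℕ, q.Prime → q ∣ n + j → (N : ℝ) ^ (1 / 9 : ℝ) ≤ q) ∧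
    (∀ h ∈ T, (n + h).primeFactorsList.length ≤ r ∧ ∀ q : ℕ, q.Prime → q ∣ n + h → (N : ℝ) ^ (1 / r : ℝ) ≤ q) ∧
    ∀ l, (a l * (n : ℤ) + b l).natAbs.Prime)).card

/-- There is no local obstruction: no prime divides `∏ h ∈ T, (x + h) * ∏ l, (a l * x + b l)` for all `x`. -/
def Unobstructed (T : Finset ℕ) {k : ℕ} (a b : Fin k → ℤ) : Prop :=
  ∀ p : ℕ, p.Prime → ∃ x : ℤ, (∀ h ∈ T, ¬ (p : ℤ) ∣ x + h) ∧ ∀ l, ¬ (p : ℤ) ∣ a l * x + b l

/-- The additive energy of order `h` of a finite family of integers: the number of the solutions of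
`v (x 1) + ... + v (x h) = v (y 1) + ... + v (y h)`. -/
noncomputable def energy (h : ℕ) {ι : Type} [Fintype ι] (v : ι → ℤ) : ℕ :=
  Nat.card {q : (Fin h → ι) × (Fin h → ι) // ∑ j, v (q.1 j) = ∑ j, v (q.2 j)}

/-- There are at least `c N / log ^ (|T| + k) N` integers `n` as in `count`, for all slopes `|a l| ≤ log ^ D N` for which
there is no local obstruction. -/
def Law (T : Finset ℕ) (i j r : ℕ) (c : ℝ) (D N : ℕ) {k : ℕ} (b : Fin k → ℤ) : Prop :=
  ∀ a : Fin k → ℤ, (∀ l, a l ≠ 0 ∧ |(a l : ℝ)| ≤ Real.log N ^ D) → Unobstructed T a b →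
    c * (N / Real.log N ^ (T.card + k)) ≤ (count T i j r N a b : ℝ)

/-- few prime factors -/
theorem length_le {m : ℕ} (hm : m ≠ 0) {x y δ : ℝ} (hx : 1 < x) (hδ : 0 < δ) (h : ∀ q : ℕ, q.Prime → q ∣ m → x ^ δ ≤ q)
    (hmy : (m : ℝ) ≤ x ^ y) : (m.primeFactorsList.length : ℝ) ≤ y / δ := by
  have h1 : ⌈x ^ δ⌉₊ ^ m.primeFactorsList.length ≤ m := by
    have h2 : ∀ q ∈ m.primeFactorsList, ⌈x ^ δ⌉₊ ≤ q := by
      intro q hq
      exact Nat.ceil_le.2 (h q (Nat.prime_of_mem_primeFactorsList hq) (Nat.dvd_of_mem_primeFactorsList hq))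
    have h3 := List.pow_card_le_prod m.primeFactorsList ⌈x ^ δ⌉₊ h2
    rwa [Nat.prod_primeFactorsList hm] at h3
  have h2 : (x ^ δ) ^ m.primeFactorsList.length ≤ x ^ y := by
    calc (x ^ δ) ^ m.primeFactorsList.length ≤ (⌈x ^ δ⌉₊ : ℝ) ^ m.primeFactorsList.length :=
          pow_le_pow_left₀ (by positivity) (Nat.le_ceil _) _
      _ ≤ m := by exact_mod_cast h1
      _ ≤ x ^ y := hmy
  rw [← Real.rpow_natCast, ← Real.rpow_mul (by linarith)] at h2
  have h3 := (Real.rpow_le_rpow_left_iff hx).1 h2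
  rw [le_div_iff₀ hδ, mul_comm]
  exact h3

/-- the general form, small `ρ` -/
theorem main (T : Finset ℕ) (i j : ℕ) (hi : i ∈ T) (hj : j ∈ T) (hij : i ≠ j) (k : ℕ) (hk : 1 ≤ k) :
    ∃ (c : ℝ) (r : ℕ), 0 < c ∧ ∀ (m B C D V U : ℕ), 1 ≤ m → ∀ ρ : ℝ, 0 < ρ → ρ ≤ 1 / 4 →
    ∃ N₀ : ℕ, ∀ N : ℕ, N₀ ≤ N → ∀ (s : Fin k → ℤ) (H : Fin k → ℕ), (∀ i, (N : ℝ) ^ (1 / 3 + ρ) ≤ H i) → (∀ i, H i ≤ N) →
      ∀ (ι : Fin k → Type) [∀ i, Fintype (ι i)] (v : ∀ i, ι i → ℤ),
      (∀ i j, |v i j| ≤ B * N) → (∀ i j, s i ≤ v i j ∧ v i j ≤ s i + H i) →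
      (∀ i, (energy m (v i) : ℝ) * H i ≤ Real.log N ^ C * (Fintype.card (ι i) : ℝ) ^ (2 * m)) →
      ∀ 𝒮 : Finset (∀ i, ι i), (∀ q ∈ 𝒮, ¬ ∀ b : Fin k → ℤ, (∀ i, |(b i : ℝ) - v i (q i)| ≤ Real.log N ^ V) →
        Law T i j r c D N b) →
      (𝒮.card : ℝ) ≤ (∏ i, (Fintype.card (ι i) : ℝ)) / Real.log N ^ U := by
  classical
  obtain ⟨S, hS⟩ : ∃ S : Finset ℕ, S = (T.erase i).erase j := ⟨_, rfl⟩
  have hScard : S.card + 2 = T.card := by
    have h1 : j ∈ T.erase i := mem_erase.2 ⟨hij.symm, hj⟩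
    have h2 := card_erase_add_one h1
    have h3 := card_erase_add_one hi
    rw [hS]
    omega
  obtain ⟨δ, c, hδ, hc, hlow⟩ := model_chen i j hij S k
  rw [hScard] at hlow
  obtain ⟨r, hr⟩ := exists_nat_ge (max (2 / δ) 9)
  have hr1 : 2 / δ ≤ r := (le_max_left _ _).trans hr
  have hr2 : (9 : ℝ) ≤ r := (le_max_right _ _).trans hr
  have hr0 : (0 : ℝ) < r := by linarith
  have hrδ : 1 / (r : ℝ) ≤ δ := by
    rw [div_le_iff₀ hr0]
    rw [div_le_iff₀ hδ] at hr1
    linarith
  refine ⟨c / 2 ^ (k + 2), r, by positivity, fun m B C D V U hm ρ hρ hρ1 => ?_⟩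
  obtain ⟨N₀, h0⟩ := low_nbhd hk (Bs i j S δ) 2 (Bs_sub i j S δ) (fun α β : Fin k → ℤ => Ok i j S α β) T.card c hc hlow
    m B C D V U hm hρ hρ1
  refine ⟨N₀ + (T.sup id) + 3, fun N hN s H hH1 hH2 ι _ v hv hvs hE 𝒮 hS' => ?_⟩
  have hN3 : 3 ≤ N := by omega
  have hNr : (3 : ℝ) ≤ N := by exact_mod_cast hN3
  refine h0 N (by omega) s H hH1 hH2 ι v hv hvs hE 𝒮 (fun q hq hcon => hS' q hq fun b hb a ha hu => ?_)
  have h1 := hcon b hb a (fun l => (ha l).1) (fun l => by rw [Nat.cast_natAbs, Int.cast_abs]; exact (ha l).2) (by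
    intro p hp
    obtain ⟨x, x1, x2⟩ := hu p hp
    refine ⟨x, x1 i hi, x1 j hj, fun h hh => x1 h ?_, x2⟩
    rw [hS] at hh
    exact mem_of_mem_erase (mem_of_mem_erase hh))
  refine h1.trans ?_
  have h2 : cntW (Bs i j S δ N) a b ≤ count T i j r N a b := by
    unfold cntW count
    apply card_le_card
    intro n hn
    unfold Bs at hn
    rw [mem_filter, mem_filter] at hn
    rw [mem_filter]
    obtain ⟨⟨g1, g2, g3, g4, g5⟩, g6⟩ := hn
    refine ⟨g1, g2, g3, g4, ?_, g6⟩
    intro h hh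
    have hTh : h ≤ T.sup id := le_sup (f := id) hh
    rw [mem_Ioc] at g1
    have hrough : ∀ q : ℕ, q.Prime → q ∣ n + h → (N : ℝ) ^ (1 / r : ℝ) ≤ q := by
      intro q hq hd
      by_cases hhi : h = i
      · rw [hhi] at hd
        rw [(Nat.prime_dvd_prime_iff_eq hq g2).1 hd]
        calc (N : ℝ) ^ (1 / r : ℝ) ≤ (N : ℝ) ^ (1 : ℝ) := by
              apply Real.rpow_le_rpow_of_exponent_le (by linarith)
              rw [div_le_one hr0]
              linarith
          _ = N := Real.rpow_one _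
          _ ≤ ((n + i : ℕ) : ℝ) := by exact_mod_cast (by omega : N ≤ n + i)
      · by_cases hhj : h = j
        · rw [hhj] at hd
          refine le_trans ?_ (g4 q hq hd)
          apply Real.rpow_le_rpow_of_exponent_le (by linarith)
          apply one_div_le_one_div_of_le (by norm_num) hr2
        · refine le_trans ?_ (g5 h (by rw [hS]; exact mem_erase.2 ⟨hhj, mem_erase.2 ⟨hhi, hh⟩⟩) q hq hd)
          exact Real.rpow_le_rpow_of_exponent_le (by linarith) hrδ
    refine ⟨?_, hrough⟩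
    by_cases hhi : h = i
    · rw [hhi, Nat.primeFactorsList_prime g2, List.length_singleton]
      have : (1 : ℝ) ≤ r := by linarith
      exact_mod_cast this
    · by_cases hhj : h = j
      · rw [hhj]
        refine g3.trans ?_
        have : (2 : ℝ) ≤ r := by linarith
        exact_mod_cast this
      · have e1 := length_le (m := n + h) (by omega) (x := N) (y := 2) (δ := δ) (by linarith) hδ
          (g5 h (by rw [hS]; exact mem_erase.2 ⟨hhj, mem_erase.2 ⟨hhi, hh⟩⟩)) (by
            have e2 : n + h ≤ N ^ 2 := by nlinarith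
            have e3 : ((n + h : ℕ) : ℝ) ≤ (N : ℝ) ^ (2 : ℕ) := by exact_mod_cast e2
            refine e3.trans (le_of_eq ?_)
            rw [← Real.rpow_natCast]
            norm_num)
        have e4 := e1.trans hr1
        exact_mod_cast e4
  exact_mod_cast h2

/-- **Theorem.** Let `T` be a finite set of natural numbers, for instance `{0, 2, 6, 8}`, `i ≠ j` elements of `T` and `k ≥ 1`.
There are `c > 0` and `r` such that:

(1) for all `B`, `D`, `U`, `ρ > 0`, all large `N` and all boxes `∏ [s l, s l + H l]`, `|s l| ≤ B N`,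
`N ^ (1 / 3 + ρ) ≤ H l ≤ N`, for all but at most `(∏ H l) / log ^ U N` of the vectors `b` of the box and for all slopes
`0 < |a l| ≤ log ^ D N` without a local obstruction there are at least `c N / log ^ (|T| + k) N` integers `N < n ≤ 2 N` such
that `n + i` is a prime, `n + j` has at most two prime factors, all the `n + h`, `h ∈ T`, have at most `r` prime factors,
all of them `≥ N ^ (1 / r)`, and all the `|a l n + b l|` are primes;

(2) for all `m ≥ 1`, `B`, `C`, `D`, `V`, `U`, `ρ > 0`, all large `N`, all lengths `N ^ (1 / 3 + ρ) ≤ H l ≤ N` and all finite families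
`v l` (`l < k`) of integers of the intervals `[s l, s l + H l]`, `|v l x| ≤ B N`, with additive energies
`energy m (v l) * H l ≤ log ^ C N * |ι l| ^ (2 m)`, the same holds for all but at most `(∏ |ι l|) / log ^ U N` of the
`q ∈ ∏ ι l`, for ALL vectors `b` with `|b l - v l (q l)| ≤ log ^ V N` and all these slopes at the same time. -/
theorem result (T : Finset ℕ) (i j k : ℕ) (hi : i ∈ T) (hj : j ∈ T) (hij : i ≠ j) (hk : 1 ≤ k) :
    ∃ (c : ℝ) (r : ℕ), 0 < c ∧
    (∀ (B D U : ℕ) (ρ : ℝ), 0 < ρ → ∃ N₀ : ℕ, ∀ N : ℕ, N₀ ≤ N →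
      ∀ (s : Fin k → ℤ) (H : Fin k → ℕ), (∀ l, (N : ℝ) ^ (1 / 3 + ρ) ≤ H l) → (∀ l, H l ≤ N) → (∀ l, |s l| ≤ B * N) →
      (Nat.card {b : Fin k → ℤ // (∀ l, s l ≤ b l ∧ b l ≤ s l + H l) ∧ ¬ Law T i j r c D N b} : ℝ) ≤
        (∏ l, (H l : ℝ)) / Real.log N ^ U) ∧
    (∀ (m B C D V U : ℕ) (ρ : ℝ), 1 ≤ m → 0 < ρ → ∃ N₀ : ℕ, ∀ N : ℕ, N₀ ≤ N →
      ∀ (s : Fin k → ℤ) (H : Fin k → ℕ), (∀ l, (N : ℝ) ^ (1 / 3 + ρ) ≤ H l) → (∀ l, H l ≤ N) →
      ∀ (ι : Fin k → Type) [∀ l, Fintype (ι l)] (v : ∀ l, ι l → ℤ),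
      (∀ l x, |v l x| ≤ B * N) → (∀ l x, s l ≤ v l x ∧ v l x ≤ s l + H l) →
      (∀ l, (energy m (v l) : ℝ) * H l ≤ Real.log N ^ C * (Fintype.card (ι l) : ℝ) ^ (2 * m)) →
      (Nat.card {q : ∀ l, ι l // ¬ ∀ b : Fin k → ℤ, (∀ l, |(b l : ℝ) - v l (q l)| ≤ Real.log N ^ V) →
        Law T i j r c D N b} : ℝ) ≤ (∏ l, (Fintype.card (ι l) : ℝ)) / Real.log N ^ U) := by
  classical
  obtain ⟨c, r, hc, hmain⟩ := main T i j hi hj hij k hk
  have part2 : ∀ (m B C D V U : ℕ) (ρ : ℝ), 1 ≤ m → 0 < ρ → ∃ N₀ : ℕ, ∀ N : ℕ, N₀ ≤ N →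
      ∀ (s : Fin k → ℤ) (H : Fin k → ℕ), (∀ l, (N : ℝ) ^ (1 / 3 + ρ) ≤ H l) → (∀ l, H l ≤ N) →
      ∀ (ι : Fin k → Type) [∀ l, Fintype (ι l)] (v : ∀ l, ι l → ℤ),
      (∀ l x, |v l x| ≤ B * N) → (∀ l x, s l ≤ v l x ∧ v l x ≤ s l + H l) →
      (∀ l, (energy m (v l) : ℝ) * H l ≤ Real.log N ^ C * (Fintype.card (ι l) : ℝ) ^ (2 * m)) →
      (Nat.card {q : ∀ l, ι l // ¬ ∀ b : Fin k → ℤ, (∀ l, |(b l : ℝ) - v l (q l)| ≤ Real.log N ^ V) →
        Law T i j r c D N b} : ℝ) ≤ (∏ l, (Fintype.card (ι l) : ℝ)) / Real.log N ^ U := by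
    intro m B C D V U ρ hm hρ
    obtain ⟨N₀, h0⟩ := hmain m B C D V U hm (min ρ (1 / 4)) (lt_min hρ (by norm_num)) (min_le_right _ _)
    refine ⟨N₀ + 1, fun N hN s H h1 h2 ι _ v h3 h4 h5 => ?_⟩
    have hN1 : (1 : ℝ) ≤ N := by exact_mod_cast (by omega : 1 ≤ N)
    rw [Nat.card_eq_fintype_card, Fintype.card_subtype]
    refine h0 N (by omega) s H (fun i => le_trans ?_ (h1 i)) h2 ι v h3 h4 h5 _ (fun q hq => (mem_filter.1 hq).2)
    apply Real.rpow_le_rpow_of_exponent_le hN1
    linarith [min_le_left ρ (1 / 4)]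
  refine ⟨c, r, hc, ?_, part2⟩
  intro B D U ρ hρ
  obtain ⟨N₀, h0⟩ := part2 1 (B + 1) 1 D 0 (U + k) ρ le_rfl hρ
  obtain ⟨N₁, h1⟩ := Pool.Agent.H373R2.T7.ev_L' 2
  refine ⟨N₀ + N₁ + 1, fun N hN s H hH1 hH2 hs => ?_⟩
  have hL2 := h1 N (by omega)
  have hL0 : 0 < Real.log (N : ℝ) := by linarith
  have hN1 : (1 : ℝ) ≤ N := by exact_mod_cast (by omega : 1 ≤ N)
  have hHpos : ∀ i, (1 : ℝ) ≤ H i := fun i => (Real.one_le_rpow hN1 (by linarith)).trans (hH1 i)
  obtain ⟨v, hv⟩ : ∃ v : ∀ i : Fin k, Fin (H i + 1) → ℤ, v = fun i j => s i + ((j.val : ℕ) : ℤ) := ⟨_, rfl⟩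
  have hvinj : ∀ i, Function.Injective (v i) := by
    intro i j j' hj
    rw [hv] at hj
    simp only [add_right_inj, Nat.cast_inj] at hj
    exact Fin.ext hj
  have key := h0 N (by omega) s H hH1 hH2 (fun i => Fin (H i + 1)) v (by
      intro i j
      rw [hv]
      have e1 := hs i
      have e2 : ((j : ℕ) : ℤ) ≤ N := by
        have := j.2
        have := hH2 i
        exact_mod_cast (by omega : (j : ℕ) ≤ N)
      have e3 : |((j : ℕ) : ℤ)| ≤ N := by rw [abs_of_nonneg (Int.natCast_nonneg _)]; exact e2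
      have e4 := abs_add_le (s i) ((j : ℕ) : ℤ)
      push_cast
      linarith) (by
      intro i j
      rw [hv]
      have := j.2
      constructor
      · simp
      · simp only [add_le_add_iff_left, Nat.cast_le]
        omega) (by
      intro i
      have e1 : energy 1 (v i) = Fintype.card (Fin (H i + 1)) := by
        unfold energy
        rw [Nat.card_eq_fintype_card]
        refine Fintype.card_congr ⟨fun x => x.1.1 0, fun i => ⟨(fun _ => i, fun _ => i), rfl⟩, fun x => ?_, fun i => rfl⟩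
        obtain ⟨⟨a, b⟩, h⟩ := x
        simp only [Fin.sum_univ_one] at h
        have h1 := hvinj i h
        apply Subtype.ext
        apply Prod.ext
        · funext j
          simp [Subsingleton.elim j 0]
        · funext j
          simp only
          rw [Subsingleton.elim j 0, ← h1]
      rw [e1, Fintype.card_fin, pow_one]
      push_cast
      have e2 : (H i : ℝ) ≤ Real.log N * (H i + 1) := by nlinarith [hHpos i]
      calc ((H i : ℝ) + 1) * H i ≤ (H i + 1) * (Real.log N * (H i + 1)) := by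
            apply mul_le_mul_of_nonneg_left e2
            linarith [hHpos i]
        _ = Real.log N * (H i + 1) ^ (2 * 1) := by ring)
  have hcard : Nat.card {b : Fin k → ℤ // (∀ i, s i ≤ b i ∧ b i ≤ s i + H i) ∧ ¬ Law T i j r c D N b} ≤
      Nat.card {q : ∀ i : Fin k, Fin (H i + 1) // ¬ ∀ b : Fin k → ℤ, (∀ i, |(b i : ℝ) - v i (q i)| ≤ Real.log N ^ 0) →
        Law T i j r c D N b} := by
    apply Nat.card_le_card_of_injective (fun b : {b : Fin k → ℤ // (∀ i, s i ≤ b i ∧ b i ≤ s i + H i) ∧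
      ¬ Law T i j r c D N b} =>
      (⟨fun i => ⟨(b.1 i - s i).toNat, by have := b.2.1 i; omega⟩, by
        intro hcon
        apply b.2.2
        have hb : ∀ i, v i ⟨(b.1 i - s i).toNat, by have := b.2.1 i; omega⟩ = b.1 i := by
          intro i
          rw [hv]
          simp only
          have := b.2.1 i
          omega
        exact hcon b.1 (fun i => by rw [hb i]; simp)⟩ :
        {q : ∀ i : Fin k, Fin (H i + 1) // ¬ ∀ b : Fin k → ℤ, (∀ i, |(b i : ℝ) - v i (q i)| ≤ Real.log N ^ 0) →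
          Law T i j r c D N b}))
    intro b b' hbb
    simp only [Subtype.mk.injEq] at hbb
    apply Subtype.ext
    funext i
    have e1 := congrArg Fin.val (congrFun hbb i)
    simp only at e1
    have e2 := b.2.1 i
    have e3 := b'.2.1 i
    omega
  have hc : (Nat.card {b : Fin k → ℤ // (∀ i, s i ≤ b i ∧ b i ≤ s i + H i) ∧ ¬ Law T i j r c D N b} : ℝ) ≤
      (∏ i, (H i + 1 : ℝ)) / Real.log N ^ (U + k) := by
    refine le_trans (by exact_mod_cast hcard) (key.trans (le_of_eq ?_))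
    simp only [Fintype.card_fin]
    push_cast
    rfl
  refine hc.trans ?_
  rw [pow_add, div_le_div_iff₀ (by positivity) (by positivity)]
  have e1 : ∏ i, ((H i : ℝ) + 1) ≤ ∏ i, (Real.log N * (H i : ℝ)) := by
    apply Finset.prod_le_prod
    · intro i _
      linarith [hHpos i]
    · intro i _
      nlinarith [hHpos i]
  rw [prod_mul_distrib, prod_const, card_univ, Fintype.card_fin] at e1
  calc (∏ i, ((H i : ℝ) + 1)) * Real.log N ^ U ≤ (Real.log N ^ k * ∏ i, (H i : ℝ)) * Real.log N ^ U :=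
        mul_le_mul_of_nonneg_right e1 (by positivity)
    _ = _ := by ring

end Pool.Agent.Results.MP_fc51f7_nt.ChenQuadruplesAndPrimes
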