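import Pool.Agent.KS6_51.INVC.Fam

set_option autoImplicit false

/-!
# Four almost primes among five consecutive odd integers, at all coordinates of the points of invariant sets modulo `p`

For odd `n ≠ 3` four of the five numbers `n`, `n + 2`, `n + 4`, `n + 6`, `n + 8` can be primes only if these are `n`,
`n + 2`, `n + 6`, `n + 8`.  We look for `n` in the interval `[m, m + p)`, `p` a prime with `m ≤ p^B` (so that the
interval can be as short as any fixed power of `m`).  Let `Ω` be an ARBITRARY set of vectors modulo `p` with `r`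
coordinates which is mapped onto itself by some affine maps, such that every nonzero linear functional has at least `T`
images under (products of) the linear parts.  If `(∏ N_j)² |Ω| T ≥ p^(3r + ε)` then the number of the vectors in `Ω`
with the least residues `x_j` of all `r` coordinates in given intervals `[A_j, A_j + N_j)`, and such that for each of
the `r` numbers `n = m + x_j` the four numbers `n`, `n + 2`, `n + 6`, `n + 8` have at most `R` prime factors, all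
larger than `p^κ`, is at least a constant times the expected number `(∏ N_j) |Ω| p^(-r) (log p)^(-4r)`.

Three cases: affine groups, in the form above; sets of elements of the field with `p^r` elements which are closed under
the multiplication with a subgroup `U` of its multiplicative group, coordinates with respect to any basis, `T = |U|`;
sets of `d`-dimensional arrays (matrices, tensors) closed under the addition of multiples of slices to slices in the
directions of a set `D`, `T = p^(1 + ∑_{j ∈ D} (n_j - 1))`.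

Proof (`Pool.Agent.KS6_51.INV`, `Pool.Agent.KS6_51.INVC`).  The modulus of the Fourier transform of `Ω` is constant on
the orbits of the functionals, and Parseval's identity bounds it.  The rest is the fundamental lemma of the sieve for
vectors of integers in the form of the starting library (`Pool.Agent.Q46.SL`, `Pool.Agent.Q20.RG.primeC`).
-/

namespace Pool.Agent.Results.MP_fc51f7_nt.InvariantQuadruplets

open Finset Matrix Module Polynomial
open Pool.Agent.Q46.SL hiding Almost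
open Pool.Agent.KS6_51.INVC hiding Count

/-- `n` is not zero and has at most `R` prime factors (counted with multiplicity), all larger than `z` -/
def Almost (z : ℝ) (R : ℕ) (n : ℤ) : Prop :=
  n ≠ 0 ∧ n.natAbs.primeFactorsList.length ≤ R ∧ ∀ q : ℕ, q.Prime → (q : ℤ) ∣ n → z < q

/-- for `n = m + x` the four numbers `n`, `n + 2`, `n + 6`, `n + 8` have at most `R` prime factors, all larger than `z` -/
def Quad (m : ℕ) (z : ℝ) (R : ℕ) (x : ℕ) : Prop :=
  Almost z R ((m : ℤ) + x) ∧ Almost z R ((m : ℤ) + x + 2) ∧ Almost z R ((m : ℤ) + x + 6) ∧ Almost z R ((m : ℤ) + x + 8)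

/-- the number of the `v` in `Ω` all of whose coordinates `c v j` have their least residue in `[A j, A j + N j)` and
with the property `P` -/
noncomputable def Count {V J : Type} {p : ℕ} (Ω : Finset V) (c : V → J → ZMod p) (A N : J → ℕ) (P : ℕ → Prop) : ℕ :=
  {v : V | v ∈ Ω ∧ ∀ j, (A j ≤ (c v j).val ∧ (c v j).val < A j + N j) ∧ P (c v j).val}.ncard

/-- the intervals `[A j, A j + N j)` are in `[0, p)` and have length at least `p ^ ε` -/
def Boxes {J : Type} (ε : ℝ) (p : ℕ) (A N : J → ℕ) : Prop := ∀ j, A j + N j ≤ p ∧ (p : ℝ) ^ ε ≤ N j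

/-- every set of row vectors which contains a nonzero vector and is closed under `h ↦ h M`, `(M, b) ∈ Γ`, has at least
`T` elements -/
def LargeOrbits {p r : ℕ} (Γ : Set (Matrix (Fin r) (Fin r) (ZMod p) × (Fin r → ZMod p))) (T : ℝ) : Prop :=
  ∀ H : Finset (Fin r → ZMod p), (∃ h ∈ H, h ≠ 0) → (∀ γ ∈ Γ, ∀ h ∈ H, h ᵥ* γ.1 ∈ H) → T ≤ H.card

/-- the array `X` with `s` times the slice `i j = b` added to the slice `i j = a` -/
def addSlice {p k : ℕ} {n : Fin k → ℕ} (j : Fin k) (a b : Fin (n j)) (s : ZMod p)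
    (X : (∀ j, Fin (n j)) → ZMod p) : (∀ j, Fin (n j)) → ZMod p :=
  fun i => if i j = a then X i + s * X (Function.update i j b) else X i

lemma adm0 (q : ℕ) (hq : q.Prime) : ∃ a : ℤ, ¬ (q : ℤ) ∣ a ∧ ¬ (q : ℤ) ∣ a + 2 ∧ ¬ (q : ℤ) ∣ a + 6 ∧ ¬ (q : ℤ) ∣ a + 8 := by
  by_cases h11 : 11 ≤ q
  · have hn : ∀ t : ℤ, 0 < t → t ≤ 9 → ¬ (q : ℤ) ∣ t := by
      intro t ht ht9 h
      have := Int.le_of_dvd ht h
      omega
    exact ⟨1, hn _ (by norm_num) (by norm_num), hn _ (by norm_num) (by norm_num), hn _ (by norm_num) (by norm_num),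
      hn _ (by norm_num) (by norm_num)⟩
  · have h2 := hq.two_le
    interval_cases q
    · exact ⟨1, by decide, by decide, by decide, by decide⟩
    · exact ⟨2, by decide, by decide, by decide, by decide⟩
    · exact absurd hq (by norm_num)
    · exact ⟨1, by decide, by decide, by decide, by decide⟩
    · exact absurd hq (by norm_num)
    · exact ⟨2, by decide, by decide, by decide, by decide⟩
    · exact absurd hq (by norm_num)
    · exact absurd hq (by norm_num)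
    · exact absurd hq (by norm_num)

lemma adm (m : ℕ) (q : ℕ) (hq : q.Prime) : ∃ a < q, ¬ (q : ℤ) ∣ (m : ℤ) + (a : ℤ) ∧ ¬ (q : ℤ) ∣ (m : ℤ) + (a : ℤ) + 2 ∧
    ¬ (q : ℤ) ∣ (m : ℤ) + (a : ℤ) + 6 ∧ ¬ (q : ℤ) ∣ (m : ℤ) + (a : ℤ) + 8 := by
  obtain ⟨a0, h0, h2, h6, h8⟩ := adm0 q hq
  have hq0 : (0 : ℤ) < q := by exact_mod_cast hq.pos
  obtain ⟨a, ha⟩ : ∃ a : ℕ, (a : ℤ) = (a0 - m) % q := ⟨((a0 - m) % q).toNat, Int.toNat_of_nonneg (Int.emod_nonneg _ hq0.ne')⟩
  have haq : a < q := by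
    have := Int.emod_lt_of_pos (a0 - m) hq0
    omega
  have hd : (q : ℤ) ∣ a0 - (m + a) := by
    have h1 := Int.dvd_sub_self_of_emod_eq ha.symm
    have e1 : a0 - ((m : ℤ) + a) = -((a : ℤ) - (a0 - m)) := by ring
    rw [e1]
    exact (dvd_neg).2 h1
  refine ⟨a, haq, fun h => h0 ?_, fun h => h2 ?_, fun h => h6 ?_, fun h => h8 ?_⟩
  · have := dvd_add hd h; ring_nf at this; simpa using this
  · have := dvd_add hd h; ring_nf at this; ring_nf; exact this
  · have := dvd_add hd h; ring_nf at this; ring_nf; exact this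
  · have := dvd_add hd h; ring_nf at this; ring_nf; exact this

/-- the four polynomials -/
noncomputable def sys (m : ℕ) : PE 4 0 4 where
  f := ![C (m : ℤ) + X, C ((m : ℤ) + 2) + X, C ((m : ℤ) + 6) + X, C ((m : ℤ) + 8) + X]
  E := fun _ => ∅
  deg := by
    rw [Fin.sum_univ_four]
    simp only [Matrix.cons_val]
    have d0 : (C (m : ℤ) + X : ℤ[X]).natDegree ≤ 1 := by compute_degree
    have d1 : (C ((m : ℤ) + 2) + X : ℤ[X]).natDegree ≤ 1 := by compute_degree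
    have d2 : (C ((m : ℤ) + 6) + X : ℤ[X]).natDegree ≤ 1 := by compute_degree
    have d3 : (C ((m : ℤ) + 8) + X : ℤ[X]).natDegree ≤ 1 := by compute_degree
    omega
  adm := by
    intro q hq
    obtain ⟨a, ha, h0, h2, h6, h8⟩ := adm m q hq
    refine ⟨by simp, a, ha, by simp, fun j => ?_⟩
    have e : ∀ t : ℤ, (m : ℤ) + a + t = (m : ℤ) + t + a := fun t => by ring
    rw [e] at h2 h6 h8
    fin_cases j
    · simpa using h0
    · simpa using h2
    · simpa using h6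
    · simpa using h8

lemma quad_of (B p m : ℕ) (hp2 : 8 ≤ p) (hm : (m : ℝ) ≤ (p : ℝ) ^ B) (κ : ℝ) (x : ℕ)
    (hx : x < p) (h : Near (B + 4) (sys m) κ p x) :
    Quad m ((p : ℝ) ^ κ) ⌊(((B + 4 : ℕ) : ℝ) + ((4 : ℕ) : ℝ) + 1) / κ⌋₊ x := by
  obtain ⟨h0, h12⟩ := h
  have hp2' : (8 : ℝ) ≤ p := by exact_mod_cast hp2
  have hP1 : (1 : ℝ) ≤ (p : ℝ) ^ B := one_le_pow₀ (by linarith)
  have hm0 : (0 : ℝ) ≤ m := Nat.cast_nonneg m
  have hbig : (p : ℝ) ^ B + 9 ≤ (p : ℝ) ^ (B + 4) := by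
    rw [pow_add]
    have e1 : (16 : ℝ) ≤ (p : ℝ) ^ 4 := by
      calc (16 : ℝ) ≤ 8 ^ 4 := by norm_num
        _ ≤ _ := pow_le_pow_left₀ (by norm_num) hp2' 4
    nlinarith
  have hc : ∀ t : ℤ, 0 ≤ t → (t : ℝ) ≤ 8 → cb (C ((m : ℤ) + t) + X : ℤ[X]) ((p : ℝ) ^ (B + 4)) := by
    intro t ht ht8
    refine cb_mono (cb_add (cb_C _) cb_X) ?_
    push_cast
    have ht0 : (0 : ℝ) ≤ t := by exact_mod_cast ht
    rw [abs_of_nonneg (by positivity)]
    linarith
  obtain ⟨h1, -⟩ := h12 (by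
    intro j
    fin_cases j
    · have := hc 0 le_rfl (by norm_num)
      rw [add_zero] at this
      exact this
    · exact hc 2 (by norm_num) (by norm_num)
    · exact hc 6 (by norm_num) (by norm_num)
    · exact hc 8 (by norm_num) (by norm_num)) (by exact_mod_cast hx.le)
  have e : ∀ t : ℤ, (m : ℤ) + x + t = (m : ℤ) + t + x := fun t => by ring
  refine ⟨?_, ?_, ?_, ?_⟩
  · have := h1 0
    simpa [sys, Almost, Pool.Agent.Q46.SL.Almost] using this
  · rw [e]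
    have := h1 1
    simpa [sys, Almost, Pool.Agent.Q46.SL.Almost] using this
  · rw [e]
    have := h1 2
    simpa [sys, Almost, Pool.Agent.Q46.SL.Almost] using this
  · rw [e]
    have := h1 3
    simpa [sys, Almost, Pool.Agent.Q46.SL.Almost] using this

/-- **Four almost primes among five consecutive odd integers at invariant sets.**  `p` is a large prime, `m ≤ p ^ B`.

1. Sets `Ω` of vectors modulo `p` which are mapped onto themselves by the affine maps `v ↦ M v + b`, `(M, b) ∈ Γ`.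

2. Sets `Ω` of elements of a field of degree `r` over the prime field, closed under the multiplication with the
elements of a subgroup `U` of the multiplicative group; coordinates with respect to a basis.

3. Sets `Ω` of arrays of the format `n 0 × ... × n (d - 1)`, closed under the addition of multiples of slices to other
slices in the directions of `D`. -/
theorem result (B : ℕ) :
    (∀ r : ℕ, ∀ ε : ℝ, 0 < ε → ε ≤ 1 → ∃ κ : ℝ, 0 < κ ∧ ∃ cc : ℝ, 0 < cc ∧ ∃ R p₀ : ℕ,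
      ∀ p : ℕ, p₀ ≤ p → ∀ [Fact p.Prime], ∀ m : ℕ, (m : ℝ) ≤ (p : ℝ) ^ B →
      ∀ (Γ : Set (Matrix (Fin r) (Fin r) (ZMod p) × (Fin r → ZMod p))) (T : ℝ), LargeOrbits Γ T →
      ∀ Ω : Finset (Fin r → ZMod p), (∀ γ ∈ Γ, Set.BijOn (fun v => γ.1 *ᵥ v + γ.2) Ω Ω) →
      ∀ A N : Fin r → ℕ, Boxes ε p A N →
        (p : ℝ) ^ (3 * (r : ℝ) + ε) ≤ (∏ j, (N j : ℝ)) ^ 2 * Ω.card * T →
        cc * ((∏ j, (N j : ℝ)) * Ω.card / (p : ℝ) ^ r) / Real.log p ^ (4 * r) ≤
          Count Ω (fun v => v) A N (Quad m ((p : ℝ) ^ κ) R)) ∧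
    (∀ r : ℕ, ∀ ε : ℝ, 0 < ε → ε ≤ 1 → ∃ κ : ℝ, 0 < κ ∧ ∃ cc : ℝ, 0 < cc ∧ ∃ R p₀ : ℕ,
      ∀ p : ℕ, p₀ ≤ p → ∀ [Fact p.Prime], ∀ m : ℕ, (m : ℝ) ≤ (p : ℝ) ^ B →
      ∀ (F : Type) [Field F] [Algebra (ZMod p) F] (b : Basis (Fin r) (ZMod p) F) (U : Subgroup Fˣ) (Ω : Finset F),
      (∀ u ∈ U, ∀ y ∈ Ω, (u : F) * y ∈ Ω) →
      ∀ A N : Fin r → ℕ, Boxes ε p A N →
        (p : ℝ) ^ (3 * (r : ℝ) + ε) ≤ (∏ j, (N j : ℝ)) ^ 2 * Ω.card * Nat.card U →
        cc * ((∏ j, (N j : ℝ)) * Ω.card / (p : ℝ) ^ r) / Real.log p ^ (4 * r) ≤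
          Count Ω (fun y j => b.repr y j) A N (Quad m ((p : ℝ) ^ κ) R)) ∧
    (∀ (d : ℕ) (n : Fin d → ℕ), (∀ j, 1 ≤ n j) → ∀ D : Finset (Fin d), (∃ j ∈ D, 2 ≤ n j) →
      ∀ ε : ℝ, 0 < ε → ε ≤ 1 → ∃ κ : ℝ, 0 < κ ∧ ∃ cc : ℝ, 0 < cc ∧ ∃ R p₀ : ℕ,
      ∀ p : ℕ, p₀ ≤ p → ∀ [Fact p.Prime], ∀ m : ℕ, (m : ℝ) ≤ (p : ℝ) ^ B →
      ∀ Ω : Finset ((∀ j, Fin (n j)) → ZMod p),
      (∀ j ∈ D, ∀ a b : Fin (n j), a ≠ b → ∀ s : ZMod p, ∀ X ∈ Ω, addSlice j a b s X ∈ Ω) →
      ∀ A N : (∀ j, Fin (n j)) → ℕ, Boxes ε p A N →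
        (p : ℝ) ^ (3 * (∏ j, (n j : ℝ)) - ∑ j ∈ D, ((n j : ℝ) - 1) - 1 + ε) ≤ (∏ i, (N i : ℝ)) ^ 2 * Ω.card →
        cc * ((∏ i, (N i : ℝ)) * Ω.card / (p : ℝ) ^ (∏ j, n j)) / Real.log p ^ (4 * ∏ j, n j) ≤
          Count Ω (fun X => X) A N (Quad m ((p : ℝ) ^ κ) R)) := by
  have hlg : ∀ (a p s : ℕ) (t : ℝ), t * lg 4 a p ≤ (s : ℝ) → t / Real.log p ^ (4 * a) ≤ s := by
    intro a p s t h
    rwa [lg, mul_one_div] at h
  refine ⟨?_, ?_, ?_⟩
  · intro r ε h0 h1
    obtain ⟨κ, hκ, cc, hcc, p₀, h⟩ := famA (Near (B + 4) : PE 4 0 4 → ℝ → ℝ → ℤ → Prop)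
      (lg (0 + 4)) (fun r => csN 4 0 4 (B + 4) r) r ε h0 h1
    refine ⟨κ, hκ, cc, hcc, ⌊(((B + 4 : ℕ) : ℝ) + ((4 : ℕ) : ℝ) + 1) / κ⌋₊, max p₀ 8, ?_⟩
    intro p hp _ m hm Γ T hT Ω hΩ A N hAN hW
    exact hlg _ _ _ _ (h p ((le_max_left _ _).trans hp) (sys m) _
      (fun x hx hnear => quad_of B p m ((le_max_right _ _).trans hp) hm κ x hx hnear) Γ T hT Ω hΩ A N hAN hW)
  · intro r ε h0 h1
    obtain ⟨κ, hκ, cc, hcc, p₀, h⟩ := famF (Near (B + 4) : PE 4 0 4 → ℝ → ℝ → ℤ → Prop)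
      (lg (0 + 4)) (fun r => csN 4 0 4 (B + 4) r) r ε h0 h1
    refine ⟨κ, hκ, cc, hcc, ⌊(((B + 4 : ℕ) : ℝ) + ((4 : ℕ) : ℝ) + 1) / κ⌋₊, max p₀ 8, ?_⟩
    intro p hp _ m hm F _ _ b U Ω hΩ A N hAN hW
    exact hlg _ _ _ _ (h p ((le_max_left _ _).trans hp) (sys m) _
      (fun x hx hnear => quad_of B p m ((le_max_right _ _).trans hp) hm κ x hx hnear) F b U Ω hΩ A N hAN hW)
  · intro d n hn D hD ε h0 h1
    obtain ⟨κ, hκ, cc, hcc, p₀, h⟩ := famT (Near (B + 4) : PE 4 0 4 → ℝ → ℝ → ℤ → Prop)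
      (lg (0 + 4)) (fun r => csN 4 0 4 (B + 4) r) d n hn D hD ε h0 h1
    refine ⟨κ, hκ, cc, hcc, ⌊(((B + 4 : ℕ) : ℝ) + ((4 : ℕ) : ℝ) + 1) / κ⌋₊, max p₀ 8, ?_⟩
    intro p hp _ m hm Ω hΩ A N hAN hW
    exact hlg _ _ _ _ (h p ((le_max_left _ _).trans hp) (sys m) _
      (fun x hx hnear => quad_of B p m ((le_max_right _ _).trans hp) hm κ x hx hnear) Ω hΩ A N hAN hW)

end Pool.Agent.Results.MP_fc51f7_nt.InvariantQuadruplets
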