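import Pool.Agent.KS6_52.SQ.Crit

set_option autoImplicit false

/-!
# Four almost primes among five consecutive odd integers, at `a u` and `c / u`, or at Fibonacci numbers modulo `p`

For odd `n ≠ 3` four of the five numbers `n`, `n + 2`, `n + 4`, `n + 6`, `n + 8` can be primes only if these are `n`,
`n + 2`, `n + 6`, `n + 8`.  We look for `n` in the interval `[m, m + p)`, `p` a prime with `m ≤ p^B` (so that the
interval can be as short as any fixed power of `m`).  The residue `x` is good if for `n = m + x` the four numbers `n`,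
`n + 2`, `n + 6`, `n + 8` have at most `R` prime factors, all larger than `p^κ`.  The pairs of residues `x_0`, `x_1`
below are both good and in given intervals `[A_j, A_j + N_j)` of `[0, p)`, for at least a constant times the expected
number `N_0 N_1 t p^(-2) (log p)^(-8)` of

1. the points `x_k`, `k < t`, of the orbit `x_(k+1) = M x_k` of a matrix `M` of determinant one and order `t` modulo `p`;
2. the pairs `(a u, c / u)`, `u` in a subgroup of order `t` of the multiplicative group modulo `p`;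
3. the pairs `(F_n, F_(n+1))` of consecutive Fibonacci numbers modulo `p`, `t` their period,

as soon as `(N_0 N_1)⁴ t³ ≥ p^(10 + ε)`; for whole intervals this is `t ≥ p^(2/3 + ε')`.  These follow from a general
theorem: if `Ω` is mapped onto itself by affine maps such that every nonzero functional has at least `T` images under
products of the linear parts, and `E` is the additive energy of `Ω`, the condition is
`(∏ N_j)⁴ |Ω|⁴ T ≥ p^(5 r + ε) E`.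

Proof (`Pool.Agent.KS6_52.RG`, `Pool.Agent.KS6_52.SQ`): the orbits lie on nondegenerate conics and have energy at most
`3 t²`; the modulus of the Fourier transform is constant on the orbits of the functionals, and the fourth moment bounds
it.  The rest is the fundamental lemma of the sieve for vectors of integers in the form of the starting library
(`Pool.Agent.Q46.SL`, `Pool.Agent.Q20.RG.primeC`).  The lemmas on the four polynomials are those of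
`MP_fc51f7_nt.InvariantQuadruplets`.
-/

namespace Pool.Agent.Results.MP_fc51f7_nt.QuadrupletsAtInverses

open Finset Matrix Polynomial
open Pool.Agent.Q46.SL hiding Almost

/-- `n` is not zero and has at most `R` prime factors (counted with multiplicity), all larger than `z` -/
def Almost (z : ℝ) (R : ℕ) (n : ℤ) : Prop :=
  n ≠ 0 ∧ n.natAbs.primeFactorsList.length ≤ R ∧ ∀ q : ℕ, q.Prime → (q : ℤ) ∣ n → z < q

/-- for `n = m + x` the four numbers `n`, `n + 2`, `n + 6`, `n + 8` have at most `R` prime factors, all larger than `z` -/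
def Quad (m : ℕ) (z : ℝ) (R : ℕ) (x : ℕ) : Prop :=
  Almost z R ((m : ℤ) + x) ∧ Almost z R ((m : ℤ) + x + 2) ∧ Almost z R ((m : ℤ) + x + 6) ∧ Almost z R ((m : ℤ) + x + 8)

/-- the intervals `[A j, A j + N j)` are in `[0, p)` and have length at least `p ^ ε` -/
def Boxes {r : ℕ} (ε : ℝ) (p : ℕ) (A N : Fin r → ℕ) : Prop := ∀ j, A j + N j ≤ p ∧ (p : ℝ) ^ ε ≤ N j

/-- `n` is in the `j`-th interval and has the property `P` -/
def Hit {r : ℕ} (P : ℕ → Prop) (A N : Fin r → ℕ) (j : Fin r) (n : ℕ) : Prop :=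
  (A j ≤ n ∧ n < A j + N j) ∧ P n

/-- every set of row vectors which contains a nonzero vector and is closed under `h ↦ h M`, `(M, b) ∈ Γ`, has at least
`T` elements -/
def LargeOrbits {p r : ℕ} (Γ : Set (Matrix (Fin r) (Fin r) (ZMod p) × (Fin r → ZMod p))) (T : ℝ) : Prop :=
  ∀ H : Finset (Fin r → ZMod p), (∃ h ∈ H, h ≠ 0) → (∀ γ ∈ Γ, ∀ h ∈ H, h ᵥ* γ.1 ∈ H) → T ≤ H.card

/-- the additive energy: the number of `(u, v, w, z)` in `Ω⁴` with `u + v = w + z` -/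
def energy {p r : ℕ} (Ω : Finset (Fin r → ZMod p)) : ℕ :=
  (((Ω ×ˢ Ω) ×ˢ (Ω ×ˢ Ω)).filter fun q => q.1.1 + q.1.2 = q.2.1 + q.2.2).card

lemma adm0 (q : ℕ) (hq : q.Prime) : ∃ a : ℤ, ¬ (q : ℤ) ∣ a ∧ ¬ (q : ℤ) ∣ a + 2 ∧ ¬ (q : ℤ) ∣ a + 6 ∧ ¬ (q : ℤ) ∣ a + 8 := by
  by_cases h11 : 11 ≤ q
  · have hn : ∀ t : ℤ, 0 < t → t ≤ 9 → ¬ (q : ℤ) ∣ t := by
      intro t ht ht9 h
      have := Int.le_of_dvd ht h
      omega
    exact ⟨1, hn _ (by norm_num) (by norm_num), hn _ (by norm_num) (by norm_num), hn _ (by norm_num) (by norm_num),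
      hn _ (by norm_num) (by norm_num)⟩
  · have h2 := hq.two_le
    interval_cases q
    · exact ⟨1, by decide, by decide, by decide, by decide⟩
    · exact ⟨2, by decide, by decide, by decide, by decide⟩
    · exact absurd hq (by norm_num)
    · exact ⟨1, by decide, by decide, by decide, by decide⟩
    · exact absurd hq (by norm_num)
    · exact ⟨2, by decide, by decide, by decide, by decide⟩
    · exact absurd hq (by norm_num)
    · exact absurd hq (by norm_num)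
    · exact absurd hq (by norm_num)

lemma adm (m : ℕ) (q : ℕ) (hq : q.Prime) : ∃ a < q, ¬ (q : ℤ) ∣ (m : ℤ) + (a : ℤ) ∧ ¬ (q : ℤ) ∣ (m : ℤ) + (a : ℤ) + 2 ∧
    ¬ (q : ℤ) ∣ (m : ℤ) + (a : ℤ) + 6 ∧ ¬ (q : ℤ) ∣ (m : ℤ) + (a : ℤ) + 8 := by
  obtain ⟨a0, h0, h2, h6, h8⟩ := adm0 q hq
  have hq0 : (0 : ℤ) < q := by exact_mod_cast hq.pos
  obtain ⟨a, ha⟩ : ∃ a : ℕ, (a : ℤ) = (a0 - m) % q := ⟨((a0 - m) % q).toNat, Int.toNat_of_nonneg (Int.emod_nonneg _ hq0.ne')⟩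
  have haq : a < q := by
    have := Int.emod_lt_of_pos (a0 - m) hq0
    omega
  have hd : (q : ℤ) ∣ a0 - (m + a) := by
    have h1 := Int.dvd_sub_self_of_emod_eq ha.symm
    have e1 : a0 - ((m : ℤ) + a) = -((a : ℤ) - (a0 - m)) := by ring
    rw [e1]
    exact (dvd_neg).2 h1
  refine ⟨a, haq, fun h => h0 ?_, fun h => h2 ?_, fun h => h6 ?_, fun h => h8 ?_⟩
  · have := dvd_add hd h; ring_nf at this; simpa using this
  · have := dvd_add hd h; ring_nf at this; ring_nf; exact this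
  · have := dvd_add hd h; ring_nf at this; ring_nf; exact this
  · have := dvd_add hd h; ring_nf at this; ring_nf; exact this

/-- the four polynomials -/
noncomputable def sys (m : ℕ) : PE 4 0 4 where
  f := ![C (m : ℤ) + X, C ((m : ℤ) + 2) + X, C ((m : ℤ) + 6) + X, C ((m : ℤ) + 8) + X]
  E := fun _ => ∅
  deg := by
    rw [Fin.sum_univ_four]
    simp only [Matrix.cons_val]
    have d0 : (C (m : ℤ) + X : ℤ[X]).natDegree ≤ 1 := by compute_degree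
    have d1 : (C ((m : ℤ) + 2) + X : ℤ[X]).natDegree ≤ 1 := by compute_degree
    have d2 : (C ((m : ℤ) + 6) + X : ℤ[X]).natDegree ≤ 1 := by compute_degree
    have d3 : (C ((m : ℤ) + 8) + X : ℤ[X]).natDegree ≤ 1 := by compute_degree
    omega
  adm := by
    intro q hq
    obtain ⟨a, ha, h0, h2, h6, h8⟩ := adm m q hq
    refine ⟨by simp, a, ha, by simp, fun j => ?_⟩
    have e : ∀ t : ℤ, (m : ℤ) + a + t = (m : ℤ) + t + a := fun t => by ring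
    rw [e] at h2 h6 h8
    fin_cases j
    · simpa using h0
    · simpa using h2
    · simpa using h6
    · simpa using h8

lemma quad_of (B p m : ℕ) (hp2 : 8 ≤ p) (hm : (m : ℝ) ≤ (p : ℝ) ^ B) (κ : ℝ) (x : ℕ)
    (hx : x < p) (h : Near (B + 4) (sys m) κ p x) :
    Quad m ((p : ℝ) ^ κ) ⌊(((B + 4 : ℕ) : ℝ) + ((4 : ℕ) : ℝ) + 1) / κ⌋₊ x := by
  obtain ⟨h0, h12⟩ := h
  have hp2' : (8 : ℝ) ≤ p := by exact_mod_cast hp2
  have hP1 : (1 : ℝ) ≤ (p : ℝ) ^ B := one_le_pow₀ (by linarith)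
  have hm0 : (0 : ℝ) ≤ m := Nat.cast_nonneg m
  have hbig : (p : ℝ) ^ B + 9 ≤ (p : ℝ) ^ (B + 4) := by
    rw [pow_add]
    have e1 : (16 : ℝ) ≤ (p : ℝ) ^ 4 := by
      calc (16 : ℝ) ≤ 8 ^ 4 := by norm_num
        _ ≤ _ := pow_le_pow_left₀ (by norm_num) hp2' 4
    nlinarith
  have hc : ∀ t : ℤ, 0 ≤ t → (t : ℝ) ≤ 8 → cb (C ((m : ℤ) + t) + X : ℤ[X]) ((p : ℝ) ^ (B + 4)) := by
    intro t ht ht8
    refine cb_mono (cb_add (cb_C _) cb_X) ?_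
    push_cast
    have ht0 : (0 : ℝ) ≤ t := by exact_mod_cast ht
    rw [abs_of_nonneg (by positivity)]
    linarith
  obtain ⟨h1, -⟩ := h12 (by
    intro j
    fin_cases j
    · have := hc 0 le_rfl (by norm_num)
      rw [add_zero] at this
      exact this
    · exact hc 2 (by norm_num) (by norm_num)
    · exact hc 6 (by norm_num) (by norm_num)
    · exact hc 8 (by norm_num) (by norm_num)) (by exact_mod_cast hx.le)
  have e : ∀ t : ℤ, (m : ℤ) + x + t = (m : ℤ) + t + x := fun t => by ring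
  refine ⟨?_, ?_, ?_, ?_⟩
  · have := h1 0
    simpa [sys, Almost, Pool.Agent.Q46.SL.Almost] using this
  · rw [e]
    have := h1 1
    simpa [sys, Almost, Pool.Agent.Q46.SL.Almost] using this
  · rw [e]
    have := h1 2
    simpa [sys, Almost, Pool.Agent.Q46.SL.Almost] using this
  · rw [e]
    have := h1 3
    simpa [sys, Almost, Pool.Agent.Q46.SL.Almost] using this

/-- **Four almost primes among five consecutive odd integers at orbits of matrices of determinant one, elements of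
subgroups and their inverses, and consecutive Fibonacci numbers.**

`p` is a large prime, `m ≤ p ^ B`. -/
theorem result (B : ℕ) :
    (∀ r : ℕ, ∀ ε : ℝ, 0 < ε → ε ≤ 1 → ∃ κ : ℝ, 0 < κ ∧ ∃ cc : ℝ, 0 < cc ∧ ∃ R p₀ : ℕ,
      ∀ p : ℕ, p₀ ≤ p → ∀ [Fact p.Prime], ∀ m : ℕ, (m : ℝ) ≤ (p : ℝ) ^ B →
      ∀ (Γ : Set (Matrix (Fin r) (Fin r) (ZMod p) × (Fin r → ZMod p))) (T : ℝ), LargeOrbits Γ T →
      ∀ Ω : Finset (Fin r → ZMod p), (∀ γ ∈ Γ, Set.BijOn (fun v => γ.1 *ᵥ v + γ.2) Ω Ω) →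
      ∀ A N : Fin r → ℕ, Boxes ε p A N →
        (p : ℝ) ^ (5 * (r : ℝ) + ε) * energy Ω ≤ ((∏ j, (N j : ℝ)) * Ω.card) ^ 4 * T →
        ∃ G : Finset (Fin r → ZMod p),
          cc * ((∏ j, (N j : ℝ)) * Ω.card / (p : ℝ) ^ r) / Real.log p ^ (4 * r) ≤ G.card ∧
          ∀ v ∈ G, v ∈ Ω ∧ ∀ j, Hit (Quad m ((p : ℝ) ^ κ) R) A N j (v j).val) ∧
    (∀ ε : ℝ, 0 < ε → ε ≤ 1 → ∃ κ : ℝ, 0 < κ ∧ ∃ cc : ℝ, 0 < cc ∧ ∃ R p₀ : ℕ,
      ∀ p : ℕ, p₀ ≤ p → ∀ [Fact p.Prime], ∀ m : ℕ, (m : ℝ) ≤ (p : ℝ) ^ B →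
      ∀ M : Matrix (Fin 2) (Fin 2) (ZMod p), M.det = 1 → M.trace ^ 2 ≠ 4 →
      ∀ x : ℕ → Fin 2 → ZMod p, (∀ k, x (k + 1) = M *ᵥ x k) → x 0 0 * x 1 1 ≠ x 0 1 * x 1 0 →
      ∀ A N : Fin 2 → ℕ, Boxes ε p A N →
        (p : ℝ) ^ (10 + ε) ≤ (∏ j, (N j : ℝ)) ^ 4 * (orderOf M : ℝ) ^ 3 →
        ∃ G : Finset ℕ, cc * ((∏ j, (N j : ℝ)) * orderOf M / (p : ℝ) ^ 2) / Real.log p ^ 8 ≤ G.card ∧
          ∀ i ∈ G, i < orderOf M ∧ ∀ j, Hit (Quad m ((p : ℝ) ^ κ) R) A N j (x i j).val) ∧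
    (∀ ε : ℝ, 0 < ε → ε ≤ 1 → ∃ κ : ℝ, 0 < κ ∧ ∃ cc : ℝ, 0 < cc ∧ ∃ R p₀ : ℕ,
      ∀ p : ℕ, p₀ ≤ p → ∀ [Fact p.Prime], ∀ m : ℕ, (m : ℝ) ≤ (p : ℝ) ^ B →
      ∀ (H : Subgroup (ZMod p)ˣ) (a c : (ZMod p)ˣ) (A N : Fin 2 → ℕ), Boxes ε p A N →
        (p : ℝ) ^ (10 + ε) ≤ (∏ j, (N j : ℝ)) ^ 4 * (Nat.card H : ℝ) ^ 3 →
        ∃ G : Finset (ZMod p)ˣ, cc * ((∏ j, (N j : ℝ)) * Nat.card H / (p : ℝ) ^ 2) / Real.log p ^ 8 ≤ G.card ∧
          ∀ u ∈ G, u ∈ H ∧ Hit (Quad m ((p : ℝ) ^ κ) R) A N 0 ((a * u : (ZMod p)ˣ) : ZMod p).val ∧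
            Hit (Quad m ((p : ℝ) ^ κ) R) A N 1 ((c * u⁻¹ : (ZMod p)ˣ) : ZMod p).val) ∧
    (∀ ε : ℝ, 0 < ε → ε ≤ 1 → ∃ κ : ℝ, 0 < κ ∧ ∃ cc : ℝ, 0 < cc ∧ ∃ R p₀ : ℕ,
      ∀ p : ℕ, p₀ ≤ p → p.Prime → ∀ m : ℕ, (m : ℝ) ≤ (p : ℝ) ^ B →
      ∀ t : ℕ, IsLeast {m : ℕ | 0 < m ∧ p ∣ Nat.fib m ∧ Nat.fib (m + 1) ≡ 1 [MOD p]} t →
      ∀ A N : Fin 2 → ℕ, Boxes ε p A N → (p : ℝ) ^ (10 + ε) ≤ (∏ j, (N j : ℝ)) ^ 4 * (t : ℝ) ^ 3 →
        ∃ G : Finset ℕ, cc * ((∏ j, (N j : ℝ)) * t / (p : ℝ) ^ 2) / Real.log p ^ 8 ≤ G.card ∧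
          ∀ n ∈ G, n < 2 * t ∧ Hit (Quad m ((p : ℝ) ^ κ) R) A N 0 (Nat.fib n % p) ∧
            Hit (Quad m ((p : ℝ) ^ κ) R) A N 1 (Nat.fib (n + 1) % p)) := by
  have hlg : ∀ (a p s : ℕ) (t : ℝ), t * lg 4 a p ≤ (s : ℝ) → t / Real.log p ^ (4 * a) ≤ s := by
    intro a p s t h
    rwa [lg, mul_one_div] at h
  have hlg2 : ∀ (p s : ℕ) (t : ℝ), t * lg 4 2 p ≤ (s : ℝ) → t / Real.log p ^ 8 ≤ s := by
    intro p s t h
    rwa [lg, mul_one_div] at h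
  refine ⟨?_, ?_, ?_, ?_⟩
  · intro r ε h0 h1
    obtain ⟨κ, hκ, cc, hcc, p₀, h⟩ := Pool.Agent.KS6_52.SQ.invC
      (Near (B + 4) : PE 4 0 4 → ℝ → ℝ → ℤ → Prop) (lg (0 + 4) r) r (csN 4 0 4 (B + 4) r) ε h0 h1
    refine ⟨κ, hκ, cc, hcc, ⌊(((B + 4 : ℕ) : ℝ) + ((4 : ℕ) : ℝ) + 1) / κ⌋₊, max p₀ 8, ?_⟩
    intro p hp _ m hm Γ T hT Ω hΩ A N hAN hW
    obtain ⟨G, g1, g2⟩ := h p ((le_max_left _ _).trans hp) (sys m) _
      (fun x hx hnear => quad_of B p m ((le_max_right _ _).trans hp) hm κ x hx hnear) Γ T hT Ω hΩ A N hAN hW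
    exact ⟨G, hlg _ _ _ _ g1, g2⟩
  · intro ε h0 h1
    obtain ⟨κ, hκ, cc, hcc, p₀, h⟩ := Pool.Agent.KS6_52.SQ.sl2C
      (Near (B + 4) : PE 4 0 4 → ℝ → ℝ → ℤ → Prop) (lg (0 + 4) 2) (csN 4 0 4 (B + 4) 2) ε h0 h1
    refine ⟨κ, hκ, cc, hcc, ⌊(((B + 4 : ℕ) : ℝ) + ((4 : ℕ) : ℝ) + 1) / κ⌋₊, max p₀ 8, ?_⟩
    intro p hp _ m hm M hM htr x hx hx0 A N hAN hW
    obtain ⟨G, g1, g2⟩ := (h p ((le_max_left _ _).trans hp)).2 (sys m) _
      (fun x hx hnear => quad_of B p m ((le_max_right _ _).trans hp) hm κ x hx hnear) M hM htr x hx hx0 A N hAN hW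
    exact ⟨G, hlg2 _ _ _ g1, g2⟩
  · intro ε h0 h1
    obtain ⟨κ, hκ, cc, hcc, p₀, h⟩ := Pool.Agent.KS6_52.SQ.inversesC
      (Near (B + 4) : PE 4 0 4 → ℝ → ℝ → ℤ → Prop) (lg (0 + 4) 2) (csN 4 0 4 (B + 4) 2) ε h0 h1
    refine ⟨κ, hκ, cc, hcc, ⌊(((B + 4 : ℕ) : ℝ) + ((4 : ℕ) : ℝ) + 1) / κ⌋₊, max p₀ 8, ?_⟩
    intro p hp _ m hm H a c A N hAN hW
    obtain ⟨G, g1, g2⟩ := h p ((le_max_left _ _).trans hp) (sys m) _
      (fun x hx hnear => quad_of B p m ((le_max_right _ _).trans hp) hm κ x hx hnear) H a c A N hAN hW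
    refine ⟨G, hlg2 _ _ _ g1, fun u hu => ?_⟩
    obtain ⟨h2, h3, h4, h5, h6⟩ := g2 u hu
    exact ⟨h2, ⟨h3, h5⟩, ⟨h4, h6⟩⟩
  · intro ε h0 h1
    obtain ⟨κ, hκ, cc, hcc, p₀, h⟩ := Pool.Agent.KS6_52.SQ.fibonacciC
      (Near (B + 4) : PE 4 0 4 → ℝ → ℝ → ℤ → Prop) (lg (0 + 4) 2) (csN 4 0 4 (B + 4) 2) ε h0 h1
    refine ⟨κ, hκ, cc, hcc, ⌊(((B + 4 : ℕ) : ℝ) + ((4 : ℕ) : ℝ) + 1) / κ⌋₊, max p₀ 8, ?_⟩
    intro p hp hpp m hm t hlt A N hAN hW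
    obtain ⟨G, g1, g2⟩ := h p ((le_max_left _ _).trans hp) hpp (sys m) _
      (fun x hx hnear => quad_of B p m ((le_max_right _ _).trans hp) hm κ x hx hnear) t hlt A N hAN hW
    refine ⟨G, hlg2 _ _ _ g1, fun n hn => ?_⟩
    obtain ⟨h2, h3, h4, h5, h6⟩ := g2 n hn
    exact ⟨h2, ⟨h3, h5⟩, ⟨h4, h6⟩⟩

end Pool.Agent.Results.MP_fc51f7_nt.QuadrupletsAtInverses
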